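import Pool.Agent.TransFree.Even

set_option autoImplicit false

/-!
Latin squares with a positive proportion of entries lying in no transversal, for every order
having a small divisor; these orders have density arbitrarily close to one.

The new ingredient is `Pool.Agent.TransFree.general_bound`: for odd `m` and odd `q ≥ 5` some
latin square of order `q * m` has at least `m * (m - 1)` entries lying in no transversal.
-/

namespace Pool.Agent.Results.MP_cd749c_co.AlmostAllOrders

/-- `L` is a latin square of order `n`: every row and every column is injective. -/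
def IsLatin {n : ℕ} (L : Fin n → Fin n → Fin n) : Prop :=
  (∀ i : Fin n, Function.Injective (L i)) ∧ (∀ j : Fin n, Function.Injective (fun i => L i j))

/-- The cells of `L` which lie in no transversal. A transversal is given by a permutation `σ`
(row `i` uses column `σ i`) whose cells carry pairwise different symbols. -/
def FreeCells {n : ℕ} (L : Fin n → Fin n → Fin n) : Set (Fin n × Fin n) :=
  {p | ¬ ∃ σ : Equiv.Perm (Fin n), Function.Injective (fun i => L i (σ i)) ∧ σ p.1 = p.2}

/-- For every `ε > 0` there are `Q, N₀` such that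
* each order `n ≥ N₀` with a divisor `d`, `2 ≤ d ≤ Q`, has a latin square with at least
  `n ^ 2 / (2 * d ^ 2)` transversal-free entries, and
* at least `(1 - ε) N` of the numbers `n < N` have such a divisor, for all `N ≥ N₀`. -/
theorem result (ε : ℝ) (hε : 0 < ε) :
    ∃ Q N₀ : ℕ,
      (∀ n : ℕ, N₀ ≤ n → ∀ d : ℕ, 2 ≤ d → d ≤ Q → d ∣ n →
        ∃ L : Fin n → Fin n → Fin n, IsLatin L ∧
          (n : ℝ) ^ 2 / (2 * (d : ℝ) ^ 2) ≤ ((FreeCells L).ncard : ℝ)) ∧
      (∀ N : ℕ, N₀ ≤ N →
        (1 - ε) * (N : ℝ) ≤ (({n : ℕ | n < N ∧ ∃ d : ℕ, 2 ≤ d ∧ d ≤ Q ∧ d ∣ n}.ncard : ℕ) : ℝ)) := by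
  classical
  obtain ⟨Q, N₁, hN₁⟩ := Pool.Agent.TransFree.exists_density ε hε
  refine ⟨Q, max N₁ (max 12 (2 * Q)), ?_, ?_⟩
  · intro n hn d hd hdQ hdn
    have h12 : 12 ≤ n := (le_max_left _ _).trans ((le_max_right _ _).trans hn)
    have h2Q : 2 * Q ≤ n := (le_max_right _ _).trans ((le_max_right _ _).trans hn)
    obtain ⟨L, h1, h2, h3⟩ := Pool.Agent.TransFree.good_of_dvd n d h12 hd hdn (by omega)
    exact ⟨L, ⟨h1, h2⟩, h3⟩
  · intro N hN
    have h := hN₁ N ((le_max_left _ _).trans hN)
    refine h.trans (le_of_eq ?_)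
    congr 1
    rw [← Set.ncard_coe_finset]
    congr 1
    ext n
    simp [Finset.mem_range]

end Pool.Agent.Results.MP_cd749c_co.AlmostAllOrders
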