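import Pool.Agent.Helper63_LS.Final

set_option autoImplicit false

/-!
A linear lower bound, valid for every order, for the largest number of entries of a latin square
of order `n` that lie in no transversal.

Odd `n`, even `K`, `3 K² < n + 2 K`. The rows `i - K, i, i + K` (`0 < i < K`) of the cyclic square
are permuted column by column so that the rows and columns `0, ..., K - 1` carry a subsquare, the
displacements being multiples of `K`; the subsquare is then replaced by a shifted one, whose
displacements are `1` modulo `K`. The total displacement of a transversal is divisible by `n` and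
smaller than `n` in absolute value, so it vanishes and the transversal has `0` or `K` entries in
the subsquare; `K` entries are excluded because the cyclic square of even order `K` has no
transversal.
-/

namespace Pool.Agent.Results.MP_cd749c_co.LinearForAllOrders

/-- `L` is a latin square of order `n`: every row and every column is injective. -/
def IsLatin {n : ℕ} (L : Fin n → Fin n → Fin n) : Prop :=
  (∀ i : Fin n, Function.Injective (L i)) ∧ (∀ j : Fin n, Function.Injective (fun i => L i j))

/-- The cells of `L` which lie in no transversal. A transversal is given by a permutation `σ`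
(row `i` uses column `σ i`) whose cells carry pairwise different symbols. -/
def FreeCells {n : ℕ} (L : Fin n → Fin n → Fin n) : Set (Fin n × Fin n) :=
  {p | ¬ ∃ σ : Equiv.Perm (Fin n), Function.Injective (fun i => L i (σ i)) ∧ σ p.1 = p.2}

/-- For every `n ≥ 9` some latin square of order `n` has at least
`max (n / 10) ((n - 8 √n - 8) / 3)` entries that lie in no transversal. -/
theorem result (n : ℕ) (hn : 9 ≤ n) :
    ∃ L : Fin n → Fin n → Fin n, IsLatin L ∧
      max ((n : ℝ) / 10) (((n : ℝ) - 8 * √(n : ℝ) - 8) / 3) ≤ ((FreeCells L).ncard : ℝ) := by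
  obtain ⟨t, ⟨L, h1, h2, h3⟩, h4, K, _, hKn, h5⟩ :=
    Pool.Agent.Helper63.LatinLinear.main_bound n hn
  refine ⟨L, ⟨h1, h2⟩, ?_⟩
  have h6 : (t : ℝ) ≤ ((FreeCells L).ncard : ℝ) := by exact_mod_cast h3
  have h7 : (n : ℝ) ≤ 10 * t := by exact_mod_cast h4
  have h8 : (n : ℝ) ≤ 3 * t + 10 * K + 8 := by exact_mod_cast h5
  have h9 : 2 * (K : ℝ) * K ≤ n := by exact_mod_cast hKn
  have h10 : 10 * (K : ℝ) ≤ 8 * √(n : ℝ) := by
    have h11 : 0 ≤ √(n : ℝ) := Real.sqrt_nonneg _
    have h12 : √(n : ℝ) ^ 2 = n := Real.sq_sqrt (Nat.cast_nonneg n)
    have h13 : (10 * (K : ℝ)) ^ 2 ≤ (8 * √(n : ℝ)) ^ 2 := by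
      have h14 : (0 : ℝ) ≤ n := Nat.cast_nonneg n
      nlinarith
    exact (abs_le_of_sq_le_sq' h13 (by positivity)).2
  exact max_le (by linarith) (by linarith)

end Pool.Agent.Results.MP_cd749c_co.LinearForAllOrders
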