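import Pool.Agent.Helper75_CD.Square
import Pool.Agent.TransFree.Even

set_option autoImplicit false

/-!
For every order `n ≥ 1` there is a latin square with one entry `e` such that at least
`(n² - 1) / 4` further entries lie in no transversal avoiding `e`.

Odd `n = 2 m - 1`: the lines have the labels `0, 1, 1, ..., m - 1, m - 1`, and a cell with the
labels `i`, `j` has a symbol of the label `i + j`, `i + j - 1` or `i + j - m`. The label sums show
that a transversal has `0` or `m` cells of the second type, and in the second case only one cell of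
the first type; but the cells in the row `0` and in the column `0` are of the first type.
-/

namespace Pool.Agent.Results.MP_cd749c_co.QuarterThroughOneEntry

/-- `L` is a latin square of order `n`: every row and every column is injective. -/
def IsLatin {n : ℕ} (L : Fin n → Fin n → Fin n) : Prop :=
  (∀ i : Fin n, Function.Injective (L i)) ∧ (∀ j : Fin n, Function.Injective (fun i => L i j))

/-- The cells `p ≠ e` of `L` which lie in no transversal avoiding the cell `e`. A transversal is
given by a permutation `σ` (row `i` uses column `σ i`) whose cells carry pairwise different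
symbols. -/
def NeedCells {n : ℕ} (L : Fin n → Fin n → Fin n) (e : Fin n × Fin n) : Set (Fin n × Fin n) :=
  {p | p ≠ e ∧ ¬ ∃ σ : Equiv.Perm (Fin n), Function.Injective (fun i => L i (σ i)) ∧
    σ p.1 = p.2 ∧ σ e.1 ≠ e.2}

/-- For every `n ≥ 1` some latin square of order `n` has an entry `e` such that at least
`(n ^ 2 - 1) / 4` other entries lie in no transversal avoiding `e`. -/
theorem result (n : ℕ) (hn : 1 ≤ n) :
    ∃ (L : Fin n → Fin n → Fin n) (e : Fin n × Fin n), IsLatin L ∧
      ((n : ℝ) ^ 2 - 1) / 4 ≤ ((NeedCells L e).ncard : ℝ) := by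
  rcases Nat.even_or_odd n with he | ho
  · obtain ⟨L, h1, h2, h3⟩ := Pool.Agent.TransFree.even_bound n (by omega) he
    refine ⟨L, (⟨0, by omega⟩, ⟨0, by omega⟩), ⟨h1, h2⟩, ?_⟩
    obtain ⟨e, he'⟩ : ∃ e : Fin n × Fin n, e = (⟨0, by omega⟩, ⟨0, by omega⟩) := ⟨_, rfl⟩
    rw [← he']
    obtain ⟨S, hS⟩ : ∃ S : Set (Fin n × Fin n), S = {p : Fin n × Fin n |
        ¬ ∃ σ : Equiv.Perm (Fin n), Function.Injective (fun i => L i (σ i)) ∧ σ p.1 = p.2} :=
      ⟨_, rfl⟩
    rw [← hS] at h3
    have h4 : S \ {e} ⊆ NeedCells L e := by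
      rintro p ⟨hp, hpe⟩
      rw [hS] at hp
      exact ⟨hpe, fun ⟨σ, a1, a2, _⟩ => hp ⟨σ, a1, a2⟩⟩
    have h5 : (S \ {e}).ncard ≤ (NeedCells L e).ncard := Set.ncard_le_ncard h4 (Set.toFinite _)
    have h6 : S.ncard ≤ (S \ {e}).ncard + 1 := by
      have h7 := Set.ncard_le_ncard_sdiff_add_ncard S {e} (Set.toFinite _)
      rwa [Set.ncard_singleton] at h7
    have h7 : n * n ≤ (NeedCells L e).ncard + 1 := by omega
    have h8 : (n : ℝ) * n ≤ ((NeedCells L e).ncard : ℝ) + 1 := by exact_mod_cast h7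
    have h9 : (1 : ℝ) ≤ n := by exact_mod_cast hn
    nlinarith
  · obtain ⟨k, rfl⟩ := ho
    have e1 : 2 * k + 1 = 2 * (k + 1) - 1 := by omega
    rw [e1]
    obtain ⟨L, e, h1, h2, h3⟩ := Pool.Agent.Helper75.OneEntry.odd_bound (k + 1) (by omega)
    refine ⟨L, e, ⟨h1, h2⟩, ?_⟩
    have h4 : Pool.Agent.Helper75.OneEntry.NeedCells L e ⊆ NeedCells L e := by
      rintro p ⟨hp, hq⟩
      exact ⟨hp, fun ⟨σ, a1, a2, a3⟩ => a3 (hq σ a1 a2)⟩
    have h5 := h3.trans (Set.ncard_le_ncard h4 (Set.toFinite _))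
    have h6 : ((k + 1) * (k + 1 - 1) : ℕ) ≤ (NeedCells L e).ncard := h5
    rw [Nat.add_sub_cancel] at h6
    have h7 : ((k : ℝ) + 1) * k ≤ ((NeedCells L e).ncard : ℝ) := by exact_mod_cast h6
    have h8 : ((2 * (k + 1) - 1 : ℕ) : ℝ) = 2 * (k : ℝ) + 1 := by
      rw [← e1]
      push_cast
      ring
    rw [h8]
    refine le_trans (le_of_eq ?_) h7
    ring

end Pool.Agent.Results.MP_cd749c_co.QuarterThroughOneEntry
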